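import Pool.Agent.H95.Shg

set_option autoImplicit false

open Pool.Agent.H95.Shg TopologicalSpace

theorem Pool.Agent.Results.MP_999952_gt.ZFC.result :
    ∃ (X : Type) (_ : TopologicalSpace X), Nonempty X ∧ SeparableSpace X ∧ MetrizableSpace X ∧
      IsTopologicalBasis {U : Set X | IsClopen U} ∧ Homogeneous X ∧
      ¬ ∃ Y : ℕ → Set X, (∀ n, StronglyHomogeneous (Y n)) ∧ ⋃ n, Y n = Set.univ := by
  obtain ⟨X, hX⟩ := main
  refine ⟨X, inferInstance, ⟨0⟩, inferInstanceAs (SeparableSpace (X : Set G)),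
    inferInstanceAs (MetrizableSpace (X : Set G)), ?_,
    fun x y => ⟨Homeomorph.addRight (y - x), by simp⟩, hX⟩
  refine (isTopologicalBasis_isClopen.isInducing
    (Topology.IsInducing.subtypeVal (t := (X : Set G)))).of_isOpen_of_subset
    (fun u hu => IsClopen.isOpen hu) ?_
  rintro _ ⟨U, hU, rfl⟩
  exact IsClopen.preimage hU continuous_subtype_val
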